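import Pool.Agent.Run7.h286.PL.StmM
import Pool.Agent.Run7.h303.PL.Base
import Pool.Agent.Run7.h160.PL.NUM

/-!
# Project PRL (helper286), extension M, piece MEA: the means of all functions of at most exponential
growth (helper216)
-/

set_option autoImplicit false
set_option linter.all false

open Polynomial IsDedekindDomain Filter
open scoped Classical

namespace Run7.h216.PL

open Pool.Agent.N874.PP (Ov Ev Sq1)
open Pool.Agent.N352.PJ (IsGen Crd Fam GoodR Ht dsc)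
open Run7.h875.TS (dg sz sqL irrD prD uT NRs sqf)
open Run7.h784.TG Run7.h286.PL

/-- The abstract form. -/
theorem mea_abs {ι : Type} (X : ℕ → Finset ι) (dm : ι → ℕ) (q : ℝ) (hq : 0 < q)
    (hlaw : ∀ φ : ℕ → ℝ, (∀ d, |φ d| ≤ 1) →
      Tendsto (fun m => (∑ D ∈ X m, φ (dm D)) / ((X m).card : ℝ)) atTop (nhds (Lw φ)))
    (hntm : ∀ y : ℝ, 1 ≤ y → ∃ B : ℝ, ∀ m, ∑ D ∈ X m, y ^ dm D ≤ B * q ^ m)
    (hcard : ∃ c : ℝ, 0 < c ∧ ∃ N₁ : ℕ, ∀ m ≥ N₁, c * q ^ m ≤ ((X m).card : ℝ))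
    (hsum : ∀ y : ℝ, Summable (fun d => wt d * y ^ d))
    (φ : ℕ → ℝ) (hφ : ∃ C y : ℝ, ∀ d, |φ d| ≤ C * y ^ d) :
    Tendsto (fun m => (∑ D ∈ X m, φ (dm D)) / ((X m).card : ℝ)) atTop (nhds (Lw φ)) := by
  obtain ⟨C₀, y₀, h₀⟩ := hφ
  set y : ℝ := max 1 |y₀| with hy
  have hy1 : 1 ≤ y := le_max_left _ _
  have hy0 : 0 < y := by linarith
  set C : ℝ := |C₀| + 1 with hC
  have hC0 : 0 < C := by positivity
  have hφ' : ∀ d, |φ d| ≤ C * y ^ d := by
    intro d
    refine (h₀ d).trans ((le_abs_self _).trans ?_)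
    rw [abs_mul, abs_pow]
    have h1 : |y₀| ^ d ≤ y ^ d := pow_le_pow_left₀ (abs_nonneg _) (le_max_right _ _) d
    have h2 : |C₀| ≤ C := by rw [hC]; linarith
    exact mul_le_mul h2 h1 (by positivity) hC0.le
  obtain ⟨B₀, hB₀⟩ := hntm (2 * y) (by linarith)
  set B : ℝ := |B₀| + 1 with hB
  have hBpos : 0 < B := by positivity
  have hB' : ∀ m, ∑ D ∈ X m, (2 * y) ^ dm D ≤ B * q ^ m := by
    intro m
    refine (hB₀ m).trans (mul_le_mul_of_nonneg_right ?_ (by positivity))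
    rw [hB]
    linarith [le_abs_self B₀]
  obtain ⟨c, hc, N₁, hN₁⟩ := hcard
  have hWpos : 0 < ∑' d, wt d :=
    Run7.h160.PL.summable_wt.tsum_pos (fun d => (Run7.h160.PL.wt_pos d).le) 0 (Run7.h160.PL.wt_pos 0)
  set W : ℝ := ∑' d, wt d with hW
  set S : ℝ := ∑' d, wt d * (2 * y) ^ d with hS
  have hS0 : 0 ≤ S := tsum_nonneg fun d => by
    have := (Run7.h160.PL.wt_pos d).le
    positivity
  -- the truncation
  have htail : ∀ R d : ℕ, |φ d - (if d ≤ R then φ d else 0)| ≤ C * (1 / 2) ^ R * (2 * y) ^ d := by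
    intro R d
    split_ifs with h
    · rw [sub_self, abs_zero]
      positivity
    · rw [sub_zero]
      refine (hφ' d).trans ?_
      have h1 : (1 : ℝ) ≤ (1 / 2) ^ R * 2 ^ d := by
        have h2 : (2 : ℝ) ^ R ≤ 2 ^ d := pow_le_pow_right₀ (by norm_num) (by omega)
        calc (1 : ℝ) = (1 / 2) ^ R * 2 ^ R := by
              rw [← mul_pow]
              norm_num
          _ ≤ _ := mul_le_mul_of_nonneg_left h2 (by positivity)
      calc C * y ^ d = C * y ^ d * 1 := by ring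
        _ ≤ C * y ^ d * ((1 / 2) ^ R * 2 ^ d) := mul_le_mul_of_nonneg_left h1 (by positivity)
        _ = _ := by rw [mul_pow]; ring
  rw [Metric.tendsto_atTop]
  intro ε hε
  -- choice of `R`
  obtain ⟨R, hR⟩ : ∃ R : ℕ, (1 / 2 : ℝ) ^ R * (C * B / c + C * S / W + 1) < ε / 3 := by
    have h1 : Tendsto (fun R : ℕ => (1 / 2 : ℝ) ^ R * (C * B / c + C * S / W + 1)) atTop (nhds 0) := by
      have := (tendsto_pow_atTop_nhds_zero_of_lt_one (r := (1 / 2 : ℝ)) (by norm_num)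
        (by norm_num)).mul_const (C * B / c + C * S / W + 1)
      rwa [zero_mul] at this
    exact (h1.eventually (gt_mem_nhds (show (0 : ℝ) < ε / 3 by positivity))).exists
  set ψ : ℕ → ℝ := fun d => if d ≤ R then φ d else 0 with hψ
  set A : ℝ := C * y ^ R with hA
  have hA0 : 0 < A := by positivity
  have hψA : ∀ d, |ψ d / A| ≤ 1 := by
    intro d
    rw [abs_div, abs_of_pos hA0, div_le_one hA0]
    simp only [hψ]
    split_ifs with h
    · refine (hφ' d).trans ?_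
      exact mul_le_mul_of_nonneg_left (pow_le_pow_right₀ hy1 h) hC0.le
    · rw [abs_zero]
      exact hA0.le
  have hlim : Tendsto (fun m => (∑ D ∈ X m, ψ (dm D)) / ((X m).card : ℝ)) atTop (nhds (Lw ψ)) := by
    have h1 := (hlaw (fun d => ψ d / A) hψA).const_mul A
    have h2 : A * Lw (fun d => ψ d / A) = Lw ψ := by
      unfold Lw
      rw [← mul_div_assoc, ← tsum_mul_left]
      congr 1
      refine tsum_congr fun d => ?_
      field_simp
    rw [h2] at h1
    refine h1.congr fun m => ?_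
    rw [← Finset.sum_div]
    field_simp
  rw [Metric.tendsto_atTop] at hlim
  obtain ⟨N₂, hN₂⟩ := hlim (ε / 3) (by positivity)
  refine ⟨max N₁ N₂, fun m hm => ?_⟩
  have h1 := hN₁ m (le_trans (le_max_left _ _) hm)
  have h2 := hN₂ m (le_trans (le_max_right _ _) hm)
  have hqm : 0 < q ^ m := by positivity
  have hpos : (0 : ℝ) < ((X m).card : ℝ) := lt_of_lt_of_le (by positivity) h1
  -- the difference of the averages
  have h3 : |(∑ D ∈ X m, φ (dm D)) / ((X m).card : ℝ) -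
      (∑ D ∈ X m, ψ (dm D)) / ((X m).card : ℝ)| ≤ (1 / 2) ^ R * (C * B / c) := by
    rw [← sub_div, ← Finset.sum_sub_distrib, abs_div, abs_of_pos hpos, div_le_iff₀ hpos]
    calc |∑ D ∈ X m, (φ (dm D) - ψ (dm D))| ≤ ∑ D ∈ X m, |φ (dm D) - ψ (dm D)| :=
          Finset.abs_sum_le_sum_abs _ _
      _ ≤ ∑ D ∈ X m, C * (1 / 2) ^ R * (2 * y) ^ dm D :=
          Finset.sum_le_sum fun D _ => htail R (dm D)
      _ = C * (1 / 2) ^ R * ∑ D ∈ X m, (2 * y) ^ dm D := by rw [Finset.mul_sum]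
      _ ≤ C * (1 / 2) ^ R * (B * q ^ m) := mul_le_mul_of_nonneg_left (hB' m) (by positivity)
      _ = (1 / 2) ^ R * (C * B / c) * (c * q ^ m) := by field_simp
      _ ≤ _ := mul_le_mul_of_nonneg_left h1 (by positivity)
  -- the difference of the expectations
  have hs1 : Summable fun d => wt d * φ d := by
    refine Summable.of_norm_bounded ((hsum y).mul_left C) fun d => ?_
    rw [norm_mul, Real.norm_of_nonneg (Run7.h160.PL.wt_pos d).le, Real.norm_eq_abs]
    calc wt d * |φ d| ≤ wt d * (C * y ^ d) :=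
          mul_le_mul_of_nonneg_left (hφ' d) (Run7.h160.PL.wt_pos d).le
      _ = _ := by ring
  have hs2 : Summable fun d => wt d * ψ d := by
    refine Summable.of_norm_bounded ((hsum y).mul_left C) fun d => ?_
    rw [norm_mul, Real.norm_of_nonneg (Run7.h160.PL.wt_pos d).le, Real.norm_eq_abs]
    have h4 : |ψ d| ≤ C * y ^ d := by
      simp only [hψ]
      split_ifs
      · exact hφ' d
      · rw [abs_zero]
        positivity
    calc wt d * |ψ d| ≤ wt d * (C * y ^ d) :=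
          mul_le_mul_of_nonneg_left h4 (Run7.h160.PL.wt_pos d).le
      _ = _ := by ring
  have hs3 : Summable fun d => C * (1 / 2) ^ R * (wt d * (2 * y) ^ d) := (hsum (2 * y)).mul_left _
  have h5 : |Lw ψ - Lw φ| ≤ (1 / 2) ^ R * (C * S / W) := by
    unfold Lw
    rw [← sub_div, ← hs2.tsum_sub hs1, abs_div, abs_of_pos hWpos, div_le_iff₀ hWpos]
    have hb : ∀ d, ‖wt d * ψ d - wt d * φ d‖ ≤ C * (1 / 2) ^ R * (wt d * (2 * y) ^ d) := by
      intro d
      rw [← mul_sub, norm_mul, Real.norm_of_nonneg (Run7.h160.PL.wt_pos d).le, Real.norm_eq_abs,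
        abs_sub_comm]
      calc wt d * |φ d - ψ d| ≤ wt d * (C * (1 / 2) ^ R * (2 * y) ^ d) :=
            mul_le_mul_of_nonneg_left (htail R d) (Run7.h160.PL.wt_pos d).le
        _ = _ := by ring
    have h6 := tsum_of_norm_bounded hs3.hasSum hb
    rw [Real.norm_eq_abs, tsum_mul_left] at h6
    refine h6.trans (le_of_eq ?_)
    rw [← hS]
    field_simp
  rw [Real.dist_eq] at h2 ⊢
  have h7 : (0 : ℝ) < (1 / 2) ^ R := by positivity
  have h8 : 0 ≤ C * B / c := by positivity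
  have h9 : 0 ≤ C * S / W := by positivity
  have h10 : (1 / 2 : ℝ) ^ R * (C * B / c) + (1 / 2) ^ R * (C * S / W) < ε / 3 := by
    have : (1 / 2 : ℝ) ^ R * (C * B / c + C * S / W + 1) =
      (1 / 2 : ℝ) ^ R * (C * B / c) + (1 / 2) ^ R * (C * S / W) + (1 / 2) ^ R := by ring
    linarith
  calc |(∑ D ∈ X m, φ (dm D)) / ((X m).card : ℝ) - Lw φ| =
        |((∑ D ∈ X m, φ (dm D)) / ((X m).card : ℝ) - (∑ D ∈ X m, ψ (dm D)) / ((X m).card : ℝ)) +
          ((∑ D ∈ X m, ψ (dm D)) / ((X m).card : ℝ) - Lw ψ) + (Lw ψ - Lw φ)| := by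
        congr 1
        ring
    _ ≤ |(∑ D ∈ X m, φ (dm D)) / ((X m).card : ℝ) - (∑ D ∈ X m, ψ (dm D)) / ((X m).card : ℝ)| +
          |(∑ D ∈ X m, ψ (dm D)) / ((X m).card : ℝ) - Lw ψ| + |Lw ψ - Lw φ| :=
        (abs_add_le _ _).trans (add_le_add_left (abs_add_le _ _) _)
    _ < ε := by linarith

theorem T_MEA (hLAW : P_LAW) (hNTM : P_NTM) (hsum : ∀ y : ℝ, Summable (fun d => wt d * y ^ d)) :
    P_MEA := by
  intro k K L O _ _ _ _ _ _ _ _ _ _ _ _ _ _ _ _ g N r f θ hF hFull hθ φ hφ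
  obtain ⟨hfin, c, hc, N₁, hN₁⟩ := T_SQF3 k hF.two (dsc g f) hF.fam.sq.ne_zero
  have hq := Run7.h303.PL.q_three hF.two
  have hcard : ∀ m, ((sqF (dsc g f) m).card : ℝ) = ((sqf (dsc g f) m).ncard : ℝ) := by
    intro m
    rw [Set.ncard_eq_toFinset_card _ (hfin m)]
    unfold sqF
    rw [dif_pos (hfin m)]
  refine mea_abs (fun m => sqF (dsc g f) m) (fun D => dimS O K f θ D) (Nat.card k : ℝ) (by linarith)
    (fun ψ hψ => hLAW k K L O g N r f θ hF hFull hθ ψ hψ)
    (fun y hy => hNTM k K L O g N r f θ hF hFull hθ y hy) ⟨c, hc, N₁, fun m hm => ?_⟩ hsum φ hφ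
  have h1 := hN₁ m hm
  rw [← hcard] at h1
  exact h1

end Run7.h216.PL
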