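import Pool.Agent.Run7.h286.PL.StmM
import Pool.Agent.Run7.h382.TG.AVG

/-!
# Project PRL (helper286), extension M, piece TRB: trivial bounds for the dimension (helper216)
-/

set_option autoImplicit false
set_option linter.all false

open Polynomial IsDedekindDomain
open scoped Classical

namespace Run7.h216.PL

open Pool.Agent.N874.PP (Ov Ev Sq1)
open Pool.Agent.N352.PJ (IsGen Crd Fam GoodR Ht dsc)
open Run7.h875.TS (dg sz sqL irrD prD uT NRs sqf)
open Run7.h784.TG Run7.h286.PL

theorem log_mul_two_pow (a s : ℕ) (hs : s ≠ 0) : Nat.log 2 (2 ^ a * s) = Nat.log 2 s + a := by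
  induction a with
  | zero => simp
  | succ a ih =>
    rw [pow_succ, show 2 ^ a * 2 * s = (2 ^ a * s) * 2 by ring,
      Nat.log_mul_base (by norm_num) (mul_ne_zero (by positivity) hs), ih]
    ring

theorem T_TRB (hSTEP : P_STEP) (hGRP : P_GRP) (hREP : P_REP) (hDIC : P_DIC) : P_TRB := by
  intro k K L O _ _ _ _ _ _ _ _ _ _ _ _ _ _ _ _ g N r f θ hF hθ
  have part1 : ∀ (S : Finset k[X]) (u : k[X] → k[X]), GoodT g f S u → ∀ Q : k[X], Q.Monic →
      Irreducible Q → Q ∉ S → ¬ Q ∣ dsc g f → ∀ w : k[X], ¬ Q ∣ w →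
      ld (SelG O K f θ (insert Q S) (Function.update u Q w)) ≤ ld (SelG O K f θ S u) + 2 * g := by
    intro S u hgood Q hQm hQ hQS hQd w hw
    have hne := (hREP k K L O g N r f θ hF hθ).2 S u hgood
      ((hGRP k K L O g N r f θ hF hθ).2 S u hgood).1
    obtain ⟨hnr1, T', -, -, -, -, -, h7⟩ := hSTEP k K L O g N r f θ hF hθ S u
      hgood hne Q hQm hQ hQS hQd w hw
    have h8 : sz (SelG O K f θ S u ⊓ T') ≤ sz (SelG O K f θ S u) :=
      Subgroup.relIndex_le_of_le_right inf_le_left hne
    have hnr := Run7.h382.TG.AVG.nr_le (O := O) hDIC hF hθ hQm hQ hQd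
    set s := sz (SelG O K f θ S u) with hs
    have h9 : sz (SelG O K f θ (insert Q S) (Function.update u Q w)) * s ≤
        2 ^ (2 * g) * s * s := by
      refine h7.trans ?_
      calc 2 ^ (nr O Q - 1) * sz (SelG O K f θ S u ⊓ T') ^ 2 ≤ 2 ^ (2 * g) * s ^ 2 := by
            refine Nat.mul_le_mul (Nat.pow_le_pow_right (by norm_num) (by omega)) ?_
            exact Nat.pow_le_pow_left h8 2
        _ = _ := by ring
    have h10 := Nat.le_of_mul_le_mul_right h9 (Nat.pos_of_ne_zero hne)
    unfold ld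
    rw [← log_mul_two_pow _ _ hne]
    exact Nat.log_mono_right h10
  refine ⟨part1, ld (SelG O K f θ ∅ (fun _ => 1)), ?_⟩
  have hemp : ∀ u : k[X] → k[X], SelG O K f θ ∅ u = SelG O K f θ ∅ (fun _ => 1) := by
    intro u
    have h1 : ∀ u v : k[X] → k[X], ∀ α : L, SelC O K f θ ∅ u α → SelC O K f θ ∅ v α := by
      intro u v α h
      exact ⟨h.ne, h.nsq, h.ev, fun P hP => absurd hP (Finset.notMem_empty P)⟩
    unfold SelG
    congr 1
    ext α
    exact ⟨fun h => h1 _ _ _ h, fun h => h1 _ _ _ h⟩
  intro S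
  induction S using Finset.induction_on with
  | empty =>
    intro u _
    rw [hemp u, Finset.card_empty]
    omega
  | insert Q S hQS ih =>
    intro u hgood
    have hgood' : GoodT g f S u :=
      ⟨fun P hP => hgood.mon P (Finset.mem_insert_of_mem hP),
        fun P hP => hgood.irr P (Finset.mem_insert_of_mem hP),
        fun P hP => hgood.nd P (Finset.mem_insert_of_mem hP),
        fun P hP => hgood.nu P (Finset.mem_insert_of_mem hP)⟩
    have h1 := part1 S u hgood' Q (hgood.mon Q (Finset.mem_insert_self _ _))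
      (hgood.irr Q (Finset.mem_insert_self _ _)) hQS (hgood.nd Q (Finset.mem_insert_self _ _))
      (u Q) (hgood.nu Q (Finset.mem_insert_self _ _))
    rw [Function.update_eq_self] at h1
    have h2 := ih u hgood'
    rw [Finset.card_insert_of_notMem hQS]
    calc _ ≤ ld (SelG O K f θ S u) + 2 * g := h1
      _ ≤ _ := by
        have : 2 * g * (S.card + 1) = 2 * g * S.card + 2 * g := by ring
        omega

end Run7.h216.PL
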